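import Mathlib

set_option autoImplicit false

namespace Pool.Agent.W350.SC

/-- insertion in a sorted list, zeros dropped -/
def insA (x : ℕ) : List ℕ → List ℕ
  | [] => [x]
  | y :: l => bif Nat.ble x y then x :: y :: l else y :: insA x l

def ins (x : ℕ) (l : List ℕ) : List ℕ := bif Nat.beq x 0 then l else insA x l

/-- all ways of removing one entry -/
def picks : List ℕ → List (ℕ × List ℕ)
  | [] => []
  | a :: l => (a, l) :: (picks l).map (fun p => (p.1, a :: p.2))

/-- split by a predicate -/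
def withB (e : ℕ) (s : List ℕ) : List ℕ := s.filter (fun a => a.testBit e)
def noB (e : ℕ) (s : List ℕ) : List ℕ := s.filter (fun a => !a.testBit e)

/-- new vertex on the edge `e`, other edges `x`, `y` -/
def stA (e x y : ℕ) (s : List ℕ) : List (List ℕ) :=
  match withB e s with
  | [a] =>
    let o := noB e s
    let a1 := a ^^^ (2 ^ e + 2 ^ y)
    let a2 := a ^^^ (2 ^ e + 2 ^ x)
    let m := 2 ^ x + 2 ^ y
    ((0, o) :: picks o).flatMap (fun p =>
      let r := ins (p.1 ^^^ m) p.2
      [ins a1 r, ins a2 r])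
  | [a, b] =>
    let o := noB e s
    let m1 := 2 ^ e + 2 ^ x
    let m2 := 2 ^ e + 2 ^ y
    [ins (a ^^^ m1) (ins (b ^^^ m2) o), ins (a ^^^ m2) (ins (b ^^^ m1) o)]
  | _ => []

/-- new vertex joining the edges `e`, `f`, third edge `x` -/
def stB (e f x : ℕ) (s : List ℕ) : List (List ℕ) :=
  let we := withB e s
  let ne := noB e s
  let wf := withB f ne
  let o := noB f ne
  match we, wf with
  | [a], [b] =>
    bif a.testBit f then [ins (a ^^^ (2 ^ e + 2 ^ f)) (ins (b ^^^ (2 ^ f + 2 ^ x)) o)]
    else [ins (a ^^^ (2 ^ e + 2 ^ x)) (ins (b ^^^ (2 ^ f + 2 ^ x)) o)]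
  | [a, b], [] =>
    bif a.testBit f then
      (bif b.testBit f then [] else [ins (a ^^^ (2 ^ e + 2 ^ f)) (ins (b ^^^ (2 ^ e + 2 ^ x)) o)])
    else (bif b.testBit f then [ins (b ^^^ (2 ^ e + 2 ^ f)) (ins (a ^^^ (2 ^ e + 2 ^ x)) o)] else [])
  | _, _ => []

/-- operations: the new vertex meets one / two old edges -/
inductive Op
  | A (e x y : ℕ)
  | B (e f x : ℕ)

/-- search tree of states -/
inductive Tr
  | lf
  | nd (l : Tr) (k : ℕ) (s : List ℕ) (r : Tr)

def eqL : List ℕ → List ℕ → Bool
  | [], [] => true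
  | a :: l, b :: m => bif Nat.beq a b then eqL l m else false
  | _, _ => false

def code : List ℕ → ℕ → ℕ
  | [], c => c % 1000000007
  | a :: l, c => code l (c * 4294967311 + a * 1099511628211)

def Tr.put (k : ℕ) (s : List ℕ) : Tr → Tr
  | .lf => .nd .lf k s .lf
  | .nd l k' s' r =>
    bif Nat.blt k k' then .nd (l.put k s) k' s' r
    else bif Nat.blt k' k then .nd l k' s' (r.put k s)
    else bif eqL s s' then .nd l k' s' r
    else .nd (l.put k s) k' s' r

def Tr.list : Tr → List (List ℕ) → List (List ℕ)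
  | .lf, acc => acc
  | .nd l _ s r, acc => l.list (s :: r.list acc)

def dd (S : List (List ℕ)) : List (List ℕ) :=
  (S.foldl (fun (t : Tr) s => t.put (code s 0) s) Tr.lf).list []

def stepOp : Op → List (List ℕ) → List (List ℕ)
  | .A e x y, S => S.flatMap (stA e x y)
  | .B e f x, S => dd (S.flatMap (stB e f x))

def runOps : List Op → List (List ℕ) → List (List ℕ)
  | [], S => S
  | o :: l, S => runOps l (stepOp o S)

end Pool.Agent.W350.SC
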