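import Pool.Agent.W350.SC.Tab
import Pool.Agent.W350.SC.Run

set_option autoImplicit false

namespace Pool.Agent.W350.SC

/-- SC-REG -/
def S_Reg : Prop := ∀ m : ℕ, (G m).IsRegularOfDegree 3

/-- SC-CARD -/
def S_Card : Prop := ∀ m : ℕ, (G m).edgeFinset.card = 111 * (m + 3)

/-- SC-GIR -/
def S_Gir : Prop := ∀ m : ℕ, 5 ≤ (G m).girth

/-- number of edges leaving a set of vertices of the fragment -/
def cutN (T : Finset (Fin 74)) : ℕ :=
  (Finset.univ.filter (fun x : Fin 74 × Fin 3 =>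
    x.1 ∈ T ∧ (dl x.1 x.2 ≠ 0 ∨ nv x.1 x.2 ∉ T))).card

/-- SC-CUT -/
def S_Cut : Prop := ∀ T : Finset (Fin 74), T.Nonempty → 3 ≤ cutN T ∧ (cutN T = 3 → T.card = 1)

/-- number of edges between a set of vertices and its complement in the ring -/
def cutG {m : ℕ} (S : Finset (V m)) : ℕ :=
  (Finset.univ.filter (fun p : V m × V m => p.1 ∈ S ∧ p.2 ∉ S ∧ (G m).Adj p.1 p.2)).card

/-- SC-RING -/
def S_Ring : Prop := S_Cut → ∀ (m : ℕ) (S : Finset (V m)), S.Nonempty → Sᶜ.Nonempty →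
  3 ≤ cutG S ∧ (cutG S = 3 → S.card = 1 ∨ Sᶜ.card = 1)

/-- SC-CYC -/
def S_Cyc : Prop := S_Cut → S_Ring → ∀ (m : ℕ) (S : Finset (V m)),
  ¬ ((G m).induce (S : Set (V m))).IsAcyclic →
  ¬ ((G m).induce ((S : Set (V m))ᶜ)).IsAcyclic →
  4 ≤ (Finset.univ.filter
        (fun p : V m × V m => p.1 ∈ S ∧ p.2 ∉ S ∧ (G m).Adj p.1 p.2)).card

/-- SC-HAND: double counting of the incidences between vertices and edges of a family -/
def S_Hand : Prop := ∀ (W : Type) [Fintype W] [DecidableEq W] (H : SimpleGraph W)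
    [DecidableRel H.Adj] (k : ℕ) (C : Fin k → Finset (Sym2 W)),
  (∀ i, C i ⊆ H.edgeFinset) →
  ∑ v : W, ∑ i, ((C i).filter (fun e => v ∈ e)).card = 2 * ∑ i, (C i).card

/-- SC-LOC: three nonempty finite sets such that every element lies in exactly zero or two of them -/
def S_Loc : Prop := ∀ (ι : Type) [DecidableEq ι] (X Y Z : Finset ι),
  X.Nonempty → Y.Nonempty → Z.Nonempty →
  (∀ c, (c ∈ X ∧ c ∈ Y ∧ c ∉ Z) ∨ (c ∈ X ∧ c ∉ Y ∧ c ∈ Z) ∨ (c ∉ X ∧ c ∈ Y ∧ c ∈ Z) ∨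
    (c ∉ X ∧ c ∉ Y ∧ c ∉ Z)) →
  4 ≤ X.card + Y.card + Z.card ∧ Even (X.card + Y.card + Z.card) ∧
    (X.card + Y.card + Z.card = 4 → Perf X Y Z)

/-- the fragment has no perfect labelling (main computation) -/
def S_Dp : Prop := ∀ (ι : Type) [DecidableEq ι] (L : ℕ → Finset ι),
  (∀ a : Fin 74, Perf (L (ed a 0)) (L (ed a 1)) (L (ed a 2))) → False

/-- SC-COV: the lower bound for the length of an even cover -/
def S_Cov : Prop := S_Hand → S_Loc → S_Dp → ∀ (m k : ℕ) (C : Fin k → Finset (Sym2 (V m))),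
  (∀ i, C i ⊆ (G m).edgeFinset) →
  (∀ i, ∀ v : V m, Even ((C i).filter (fun e => v ∈ e)).card) →
  (∀ e ∈ (G m).edgeFinset, ∃ i, e ∈ C i) →
  149 * (m + 3) ≤ ∑ i, (C i).card

/-- conclusion of SC-COV -/
def S_Low : Prop := ∀ (m k : ℕ) (C : Fin k → Finset (Sym2 (V m))),
  (∀ i, C i ⊆ (G m).edgeFinset) →
  (∀ i, ∀ v : V m, Even ((C i).filter (fun e => v ∈ e)).card) →
  (∀ e ∈ (G m).edgeFinset, ∃ i, e ∈ C i) →
  149 * (m + 3) ≤ ∑ i, (C i).card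

/-- SC-COL -/
def S_Col : Prop := S_Hand → S_Low → S_Reg → ∀ m : ℕ, ¬ (G m).lineGraph.Colorable 3

/-- `s` is the list of the signatures (sets of boundary edges, as binary numbers) of the labels
occurring on the boundary edges `bd` -/
def Mt {ι : Type} (L : ℕ → Finset ι) (bd : Finset ℕ) (s : List ℕ) : Prop :=
  ∃ (N : Finset ι) (f : ι → ℕ), (s : Multiset ℕ) = N.val.map f ∧
    (∀ e ∈ bd, ∀ c, c ∈ L e ↔ c ∈ N ∧ (f c).testBit e = true) ∧
    (∀ c ∈ N, ∀ e, (f c).testBit e = true → e ∈ bd)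

/-- SC-STA -/
def S_StA : Prop := ∀ (ι : Type) [DecidableEq ι] (L : ℕ → Finset ι) (bd : Finset ℕ)
    (e x y : ℕ) (s : List ℕ), e ∈ bd → x ∉ bd → y ∉ bd → x ≠ y →
  Perf (L e) (L x) (L y) → Mt L bd s →
  ∃ s' ∈ stA e x y s, Mt L (insert x (insert y (bd.erase e))) s'

/-- SC-STB -/
def S_StB : Prop := ∀ (ι : Type) [DecidableEq ι] (L : ℕ → Finset ι) (bd : Finset ℕ)
    (e f x : ℕ) (s : List ℕ), e ∈ bd → f ∈ bd → e ≠ f → x ∉ bd →
  Perf (L e) (L f) (L x) → Mt L bd s →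
  ∃ s' ∈ stB e f x s, Mt L (insert x ((bd.erase e).erase f)) s'

/-- SC-DD -/
def S_Dd : Prop := ∀ (S : List (List ℕ)) (s : List ℕ), s ∈ S → s ∈ dd S

end Pool.Agent.W350.SC
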