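import Mathlib

set_option autoImplicit false

/-!
# A fragment of a cubic graph without a (1,1,2)-cover

The fragment `F` has 74 vertices and 4 dangling edges; `nbL` lists for each vertex `a` the three
neighbours as pairs `(d, b)`: `d = 0` means the vertex `b` of the same copy of `F`, `d = 1` the
vertex `b` of the next copy, `d = 2` the vertex `b` of the previous copy.  `eL` lists the numbers
of the three edges at `a` (edges `0..108` inside the copy, `109, 110` towards the previous copy,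
`111, 112` towards the next copy).
-/

namespace Pool.Agent.W350.SC

def nbL : List (List (ℕ × ℕ)) := [[(0, 1), (0, 5), (0, 15)], [(0, 0), (0, 2), (0, 3)], [(0, 1), (0, 6), (0, 16)], [(0, 7), (0, 1), (0, 36)],
  [(0, 5), (0, 9), (0, 11)], [(0, 4), (0, 10), (0, 0)], [(0, 8), (0, 9), (0, 2)], [(0, 3), (0, 9), (0, 10)], [(0,
  6), (0, 10), (0, 11)], [(0, 7), (0, 4), (0, 6)], [(0, 8), (0, 5), (0, 7)], [(0, 12), (0, 8), (0, 4)], [(0, 11),
  (0, 30), (0, 37)], [(0, 14), (0, 18), (0, 27)], [(0, 13), (0, 15), (0, 19)], [(0, 14), (0, 20), (0, 0)], [(0,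
  18), (0, 19), (0, 2)], [(0, 19), (0, 20), (0, 25)], [(0, 16), (0, 13), (0, 20)], [(0, 17), (0, 14), (0, 16)],
  [(0, 18), (0, 15), (0, 17)], [(0, 22), (0, 26), (0, 31)], [(0, 21), (0, 23), (0, 27)], [(0, 22), (0, 24), (0,
  28)], [(0, 23), (0, 29), (0, 33)], [(0, 28), (0, 17), (0, 30)], [(0, 21), (0, 28), (0, 29)], [(0, 22), (0, 29),
  (0, 13)], [(0, 26), (0, 23), (0, 25)], [(0, 27), (0, 24), (0, 26)], [(0, 31), (0, 25), (0, 12)], [(0, 30), (0,
  21), (0, 32)], [(0, 33), (0, 31), (0, 45)], [(0, 32), (0, 24), (0, 50)], [(0, 35), (0, 39), (0, 43)], [(0, 34),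
  (0, 36), (0, 40)], [(0, 35), (0, 41), (0, 3)], [(0, 39), (0, 40), (0, 12)], [(0, 40), (0, 41), (0, 42)], [(0,
  37), (0, 34), (0, 41)], [(0, 38), (0, 35), (0, 37)], [(0, 39), (0, 36), (0, 38)], [(0, 38), (0, 44), (0, 49)],
  [(0, 44), (0, 34), (0, 68)], [(0, 43), (0, 42), (0, 66)], [(0, 32), (0, 46), (0, 58)], [(0, 47), (0, 51), (0,
  45)], [(0, 46), (0, 48), (0, 52)], [(0, 47), (0, 53), (0, 54)], [(0, 51), (0, 52), (0, 42)], [(0, 52), (0, 53),
  (0, 33)], [(0, 49), (0, 46), (0, 53)], [(0, 50), (0, 47), (0, 49)], [(0, 51), (0, 48), (0, 50)], [(0, 55), (0,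
  59), (0, 48)], [(0, 54), (0, 56), (0, 60)], [(0, 55), (0, 61), (1, 57)], [(0, 59), (0, 60), (2, 56)], [(0, 60),
  (0, 61), (0, 45)], [(0, 57), (0, 54), (0, 61)], [(0, 58), (0, 55), (0, 57)], [(0, 59), (0, 56), (0, 58)], [(0,
  63), (0, 67), (0, 71)], [(0, 62), (0, 64), (0, 68)], [(0, 63), (0, 65), (0, 69)], [(0, 64), (0, 70), (0, 72)],
  [(0, 69), (0, 44), (0, 73)], [(0, 62), (0, 69), (0, 70)], [(0, 63), (0, 70), (0, 43)], [(0, 67), (0, 64), (0,
  66)], [(0, 68), (0, 65), (0, 67)], [(0, 62), (0, 73), (2, 72)], [(0, 73), (0, 65), (1, 71)], [(0, 72), (0, 71),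
  (0, 66)]]

def eL : List (List ℕ) := [[0, 11, 28], [0, 1, 13], [1, 12, 27], [3, 13, 60], [6, 7, 16], [6, 9, 11], [2, 8, 12], [3, 4, 10], [2, 5, 15],
  [4, 7, 8], [5, 9, 10], [14, 15, 16], [14, 45, 59], [19, 20, 40], [19, 22, 23], [22, 25, 28], [17, 24, 27], [18,
  26, 41], [17, 20, 21], [18, 23, 24], [21, 25, 26], [29, 30, 43], [29, 32, 33], [32, 35, 36], [35, 38, 48], [37,
  41, 44], [30, 31, 39], [33, 34, 40], [31, 36, 37], [34, 38, 39], [42, 44, 45], [42, 43, 47], [46, 47, 65], [46,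
  48, 76], [51, 52, 63], [51, 54, 55], [54, 57, 60], [49, 56, 59], [50, 58, 61], [49, 52, 53], [50, 55, 56], [53,
  57, 58], [61, 64, 77], [62, 63, 102], [62, 64, 103], [65, 78, 89], [68, 69, 78], [68, 71, 72], [71, 74, 90],
  [66, 73, 77], [67, 75, 76], [66, 69, 70], [67, 72, 73], [70, 74, 75], [81, 82, 90], [81, 84, 85], [84, 87,
  111], [79, 86, 109], [80, 88, 89], [79, 82, 83], [80, 85, 86], [83, 87, 88], [91, 92, 104], [91, 94, 95], [94,
  97, 98], [97, 100, 107], [99, 103, 108], [92, 93, 101], [95, 96, 102], [93, 98, 99], [96, 100, 101], [104, 106,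
  110], [105, 107, 112], [105, 106, 108]]

/-- the kind of the neighbour number `p` of the vertex `a`: same copy, next, previous -/
def dl (a : Fin 74) (p : Fin 3) : ℕ := ((nbL.getD a.val []).getD p.val (0, 0)).1

/-- the position of the neighbour number `p` of the vertex `a` in its copy -/
def nv (a : Fin 74) (p : Fin 3) : Fin 74 := Fin.ofNat 74 ((nbL.getD a.val []).getD p.val (0, 0)).2

/-- the number of the edge number `p` at the vertex `a` -/
def ed (a : Fin 74) (p : Fin 3) : ℕ := (eL.getD a.val []).getD p.val 0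

/-- the vertices of the ring of `m + 3` copies of the fragment -/
abbrev V (m : ℕ) : Type := Fin (m + 3) × Fin 74

/-- shift of the copy -/
def sh {m : ℕ} (i : Fin (m + 3)) (d : ℕ) : Fin (m + 3) :=
  if d = 0 then i else if d = 1 then i + 1 else i - 1

/-- the neighbour number `p` -/
def nbr {m : ℕ} (u : V m) (p : Fin 3) : V m := (sh u.1 (dl u.2 p), nv u.2 p)

def inv (d : ℕ) : ℕ := if d = 0 then 0 else if d = 1 then 2 else 1

theorem dl_lt : ∀ (a : Fin 74) (p : Fin 3), dl a p < 3 := by decide +kernel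

theorem back : ∀ (a : Fin 74) (p : Fin 3), ∃ q : Fin 3, nv (nv a p) q = a ∧
    dl (nv a p) q = inv (dl a p) ∧ (dl a p = 0 → ed (nv a p) q = ed a p) := by decide +kernel

theorem nv_inj : ∀ (a : Fin 74) (p q : Fin 3), nv a p = nv a q → p = q := by decide +kernel

theorem nv_ne : ∀ (a : Fin 74) (p : Fin 3), nv a p ≠ a := by decide +kernel

theorem sh_inv {m : ℕ} (i : Fin (m + 3)) (d : ℕ) (h : d < 3) : sh (sh i d) (inv d) = i := by
  unfold sh inv
  interval_cases d <;> simp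

/-- the ring of `m + 3` copies of the fragment -/
def G (m : ℕ) : SimpleGraph (V m) where
  Adj u v := ∃ p : Fin 3, nbr u p = v
  symm := ⟨by
    rintro u v ⟨p, rfl⟩
    obtain ⟨q, h1, h2, -⟩ := back u.2 p
    refine ⟨q, ?_⟩
    unfold nbr
    refine Prod.ext ?_ h1
    show sh (sh u.1 (dl u.2 p)) (dl (nv u.2 p) q) = u.1
    rw [h2]
    exact sh_inv _ _ (dl_lt _ _)⟩
  loopless := ⟨by
    rintro u ⟨p, h⟩
    exact nv_ne u.2 p (congrArg Prod.snd h)⟩

instance (m : ℕ) : DecidableRel (G m).Adj := fun u v => by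
  unfold G
  infer_instance

/-- perfect triples of labels: two different singletons and their union -/
def Perf {ι : Type} [DecidableEq ι] (X Y Z : Finset ι) : Prop :=
  ∃ a b, a ≠ b ∧ ((X = {a} ∧ Y = {b} ∧ Z = {a, b}) ∨ (X = {a} ∧ Z = {b} ∧ Y = {a, b}) ∨
    (Y = {a} ∧ Z = {b} ∧ X = {a, b}))

/-- labels of an element of `Z_2^15`-flow of the fragment closed by one extra vertex -/
def flL : List ℕ := [20723, 3535, 10520, 22120, 13221, 13476, 11608, 27228, 23033, 20841, 26061, 31793, 28897, 23868, 23224, 7612,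
  18180, 1274, 18983, 25886, 27355, 28193, 22253, 13299, 31188, 31279, 5134, 32046, 11458, 12149, 7138, 9309,
  8935, 3474, 599, 7783, 15488, 6365, 15848, 16319, 4037, 24105, 25012, 13463, 18164, 10048, 5787, 21795, 9103,
  1986, 29648, 8933, 22332, 20734, 11023, 2538, 31290, 8283, 28837, 32248, 2900, 885, 26906, 30169, 23414, 17336,
  17494, 21593, 18890, 22953, 7679, 454, 18444, 7253, 31922, 24909, 13588, 22531, 4195, 25056, 21072, 10480,
  21892, 13412, 26352, 19968, 7248, 13807, 395, 21467, 32116, 1959, 6369, 16017, 12367, 14312, 11051, 22173,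
  26322, 22595, 3419, 9840, 7363, 12908, 8006, 954, 27029, 23494, 27183, 32176, 30419, 21279, 22652]

/-- the parent (`74` = outside) in a spanning tree -/
def paL : List ℕ := [1, 3, 1, 36, 11, 4, 8, 3, 11, 4, 8, 12, 30, 27, 13, 20, 19, 25, 13, 17, 17, 31, 21, 24, 33, 30, 21, 29, 23,
  24, 31, 32, 45, 32, 43, 34, 35, 39, 42, 34, 38, 38, 44, 68, 66, 58, 45, 48, 54, 42, 53, 53, 47, 48, 59, 56, 74,
  74, 60, 57, 57, 56, 71, 62, 65, 72, 73, 62, 63, 67, 65, 74, 74, 71]

end Pool.Agent.W350.SC
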